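import Pool.Agent.W861.TF.Stm

/-!
Project TF (helper861), task GR: greedy choice of blocks.
-/

set_option autoImplicit false

namespace Pool.Agent.W991.TF.GR

open Pool.Agent.W861.TF

variable {E : Type} [AddCommGroup E] [Module ℝ E] [FiniteDimensional ℝ E]

/-- `m` independent vectors in a family spanning at least `m` dimensions -/
lemma extract {d m : ℕ} (v : Fin d → E) (T : Set (Fin d))
    (h : m ≤ Module.finrank ℝ (Submodule.span ℝ (v '' T))) :
    ∃ I : Fin m → Fin d, Function.Injective I ∧ LinearIndependent ℝ (fun i => v (I i)) ∧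
      ∀ i, I i ∈ T := by
  classical
  obtain ⟨κ, a, ha, hspan, hli⟩ := exists_linearIndependent' ℝ (fun i : T => v i)
  haveI : Finite κ := Finite.of_injective a ha
  haveI : Fintype κ := Fintype.ofFinite κ
  have h1 : Set.range (fun i : T => v i) = v '' T := by
    ext x
    simp
  have h2 : Fintype.card κ = Module.finrank ℝ (Submodule.span ℝ (v '' T)) := by
    rw [← h1, ← hspan, finrank_span_eq_card hli]
  have h3 : Fintype.card (Fin m) ≤ Fintype.card κ := by
    rw [Fintype.card_fin, h2]
    exact h
  obtain ⟨f⟩ := Function.Embedding.nonempty_of_card_le h3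
  refine ⟨fun i => (a (f i) : Fin d), ?_, ?_, fun i => (a (f i)).2⟩
  · intro i j hij
    exact f.injective (ha (Subtype.ext hij))
  · exact hli.comp f f.injective

lemma blocks {d m : ℕ} (v : Fin d → E) (T : Set (Fin d)) (t : ℕ) :
    (∃ J : Fin t → Fin m → Fin d, Function.Injective (fun x : Fin t × Fin m => J x.1 x.2) ∧
      (∀ b, LinearIndependent ℝ (fun i => v (J b i))) ∧ ∀ b i, J b i ∈ T) ∨
    (∃ S : Finset (Fin d), S.card ≤ t * m ∧ (∀ i ∈ S, i ∈ T) ∧
      Module.finrank ℝ (Submodule.span ℝ (v '' {i | i ∈ T ∧ i ∉ S})) ≤ m) := by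
  classical
  induction t with
  | zero =>
    left
    exact ⟨fun b => b.elim0, fun x => x.1.elim0, fun b => b.elim0, fun b => b.elim0⟩
  | succ t ih =>
    rcases ih with ⟨J, hJ, hli, hT⟩ | ⟨S, hS, hST, hr⟩
    · set S : Finset (Fin d) := Finset.univ.image (fun x : Fin t × Fin m => J x.1 x.2) with hS
      have hcard : S.card = t * m := by
        rw [hS, Finset.card_image_of_injective _ hJ]
        simp
      by_cases hr : Module.finrank ℝ (Submodule.span ℝ (v '' {i | i ∈ T ∧ i ∉ S})) ≤ m
      · right
        refine ⟨S, ?_, ?_, hr⟩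
        · rw [hcard]
          exact Nat.mul_le_mul_right _ (Nat.le_succ t)
        · intro i hi
          rw [hS, Finset.mem_image] at hi
          obtain ⟨x, _, rfl⟩ := hi
          exact hT x.1 x.2
      · left
        push Not at hr
        obtain ⟨I, hI, hIli, hIT⟩ := extract (m := m) v {i | i ∈ T ∧ i ∉ S} hr.le
        have hnot : ∀ (i : Fin m) (b : Fin t) (j : Fin m), I i ≠ J b j := by
          intro i b j h
          refine (hIT i).2 ?_
          rw [h, hS, Finset.mem_image]
          exact ⟨(b, j), Finset.mem_univ _, rfl⟩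
        refine ⟨Fin.cons I J, ?_, ?_, ?_⟩
        · rintro ⟨b, i⟩ ⟨b', i'⟩ h
          revert h
          refine Fin.cases ?_ (fun b => ?_) b
          · refine Fin.cases ?_ (fun b' => ?_) b'
            · intro h
              simp only [Fin.cons_zero] at h
              rw [hI h]
            · intro h
              simp only [Fin.cons_zero, Fin.cons_succ] at h
              exact absurd h (hnot _ _ _)
          · refine Fin.cases ?_ (fun b' => ?_) b'
            · intro h
              simp only [Fin.cons_zero, Fin.cons_succ] at h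
              exact absurd h.symm (hnot _ _ _)
            · intro h
              simp only [Fin.cons_succ] at h
              have := @hJ (b, i) (b', i') h
              simp only [Prod.mk.injEq] at this
              rw [this.1, this.2]
        · intro b
          refine Fin.cases ?_ (fun b => ?_) b
          · simpa using hIli
          · simpa using hli b
        · intro b i
          refine Fin.cases ?_ (fun b => ?_) b
          · simpa using (hIT i).1
          · simpa using hT b i
    · right
      exact ⟨S, hS.trans (Nat.mul_le_mul_right _ (Nat.le_succ t)), hST, hr⟩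

theorem gr : S_GR := by
  classical
  intro E _ _ _ d m B Hh v N hHh
  by_cases h1 : m ≤ Module.finrank ℝ (Submodule.span ℝ (v '' {i | Hh ≤ N i}))
  · left
    obtain ⟨I, hI, hli, hT⟩ := extract v {i | Hh ≤ N i} h1
    exact ⟨I, hI, hli, hT⟩
  · right
    push Not at h1
    rcases blocks (m := m) v {i | 2 ≤ N i ∧ N i < Hh} B with ⟨J, hJ, hli, hT⟩ | ⟨S, hS, hST, hr⟩
    · left
      exact ⟨J, hJ, hli, fun b i => (hT b i).1⟩
    · right
      refine ⟨S, hS, fun i hi => (hST i hi).2, ?_⟩
      have hsub : v '' {i | i ∉ S ∧ 2 ≤ N i} ⊆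
          v '' {i | Hh ≤ N i} ∪ v '' {i | i ∈ {i | 2 ≤ N i ∧ N i < Hh} ∧ i ∉ S} := by
        rintro _ ⟨i, ⟨hi1, hi2⟩, rfl⟩
        by_cases h : Hh ≤ N i
        · exact Or.inl ⟨i, h, rfl⟩
        · push Not at h
          exact Or.inr ⟨i, ⟨⟨hi2, h⟩, hi1⟩, rfl⟩
      calc Module.finrank ℝ (Submodule.span ℝ (v '' {i | i ∉ S ∧ 2 ≤ N i}))
          ≤ Module.finrank ℝ (Submodule.span ℝ (v '' {i | Hh ≤ N i} ∪
              v '' {i | i ∈ {i | 2 ≤ N i ∧ N i < Hh} ∧ i ∉ S})) :=
            Submodule.finrank_mono (Submodule.span_mono hsub)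
        _ = Module.finrank ℝ ↥(Submodule.span ℝ (v '' {i | Hh ≤ N i}) ⊔
              Submodule.span ℝ (v '' {i | i ∈ {i | 2 ≤ N i ∧ N i < Hh} ∧ i ∉ S})) := by
            rw [Submodule.span_union]
        _ ≤ _ := Submodule.finrank_add_le_finrank_add_finrank _ _
        _ ≤ m + m := Nat.add_le_add h1.le hr
        _ = 2 * m := by ring

end Pool.Agent.W991.TF.GR
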