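import Pool.Agent.W861.TF.Stm

/-!
Project TF (helper861), task NP: the Natarajan-Pajor lemma.
-/

set_option autoImplicit false

namespace Pool.Agent.W991.TF.NP

open Pool.Agent.W861.TF

/-- `K` shatters a set of `h` coordinates -/
def Sh {m L : ℕ} (h : ℕ) (K : Finset (Fin m → Fin (L + 1))) : Prop :=
  ∃ (e : Fin h → Fin m) (g : Fin h → Bool → Fin (L + 1)), Function.Injective e ∧
    (∀ l, g l false ≠ g l true) ∧ ∀ β : Fin h → Bool, ∃ k ∈ K, ∀ l, k (e l) = g l (β l)

lemma card_le_offDiag {A : Type*} [DecidableEq A] (T : Finset A) :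
    T.card ≤ 1 + T.offDiag.card := by
  rw [Finset.offDiag_card]
  rcases Nat.eq_zero_or_pos T.card with h | h
  · omega
  · have h1 : T.card ≤ T.card * T.card := Nat.le_mul_of_pos_left _ h
    have h2 : 2 * T.card ≤ T.card * T.card + 1 := by nlinarith [Nat.zero_le ((T.card - 1) * (T.card - 1)), Nat.sub_add_cancel h]
    omega

theorem bound (L : ℕ) : ∀ (m h : ℕ) (K : Finset (Fin m → Fin (L + 1))), ¬ Sh h K →
    K.card ≤ 2 ^ m * ((L + 1) ^ 2) ^ h := by
  classical
  intro m
  induction m with
  | zero =>
    intro h K hK
    have h1 : K.card ≤ 1 := by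
      have := Finset.card_le_univ K
      simpa using this
    have h2 : 1 ≤ ((L + 1) ^ 2) ^ h := Nat.one_le_pow _ _ (by positivity)
    simpa using h1.trans h2
  | succ m ih =>
    intro h K hK
    cases h with
    | zero =>
      have hKe : K = ∅ := by
        by_contra hne
        obtain ⟨k, hk⟩ := Finset.nonempty_iff_ne_empty.mpr hne
        exact hK ⟨Fin.elim0, Fin.elim0, fun a => a.elim0, fun l => l.elim0,
          fun β => ⟨k, hk, fun l => l.elim0⟩⟩
      simp [hKe]
    | succ h =>
      set K' : Finset (Fin m → Fin (L + 1)) := K.image Fin.tail with hK'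
      set T : (Fin m → Fin (L + 1)) → Finset (Fin (L + 1)) :=
        fun k' => Finset.univ.filter fun a => (Fin.cons a k' : Fin (m + 1) → Fin (L + 1)) ∈ K with hT
      set Kab : Fin (L + 1) × Fin (L + 1) → Finset (Fin m → Fin (L + 1)) :=
        fun p => K'.filter fun k' => p.1 ∈ T k' ∧ p.2 ∈ T k' with hKab
      -- K' does not shatter
      have h1 : ¬ Sh (h + 1) K' := by
        rintro ⟨e, g, he, hg, hs⟩
        refine hK ⟨fun l => (e l).succ, g, fun a b hab => he (Fin.succ_injective _ hab), hg, ?_⟩
        intro β
        obtain ⟨k', hk', hk2⟩ := hs β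
        rw [hK', Finset.mem_image] at hk'
        obtain ⟨k, hk, rfl⟩ := hk'
        exact ⟨k, hk, fun l => hk2 l⟩
      have h2 : ∀ p ∈ (Finset.univ : Finset (Fin (L + 1))).offDiag, ¬ Sh h (Kab p) := by
        rintro ⟨a, b⟩ hp ⟨e, g, he, hg, hs⟩
        have hab : a ≠ b := by
          rw [Finset.mem_offDiag] at hp
          exact hp.2.2
        refine hK ⟨Fin.cons 0 (fun l => (e l).succ),
          Fin.cons (fun c => if c then b else a) g, ?_, ?_, ?_⟩
        · rw [Fin.cons_injective_iff]
          refine ⟨?_, fun a b hab => he (Fin.succ_injective _ hab)⟩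
          rintro ⟨l, hl⟩
          exact Fin.succ_ne_zero _ hl
        · intro l
          refine Fin.cases ?_ (fun l => ?_) l
          · simpa using hab
          · simpa using hg l
        · intro β
          obtain ⟨k', hk', hk2⟩ := hs (fun l => β l.succ)
          rw [hKab, Finset.mem_filter] at hk'
          obtain ⟨_, ha, hb⟩ := hk'
          simp only [hT, Finset.mem_filter, Finset.mem_univ, true_and] at ha hb
          refine ⟨Fin.cons (if β 0 then b else a) k', ?_, ?_⟩
          · split_ifs
            · exact hb
            · exact ha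
          · intro l
            refine Fin.cases ?_ (fun l => ?_) l
            · simp
            · simpa using hk2 l
      -- count
      have h3 : K.card ≤ ∑ k' ∈ K', (1 + (T k').offDiag.card) := by
        rw [Finset.card_eq_sum_card_image Fin.tail K]
        refine Finset.sum_le_sum fun k' hk' => ?_
        refine le_trans ?_ (card_le_offDiag (T k'))
        refine Finset.card_le_card_of_injOn (fun k => k 0) ?_ ?_
        · intro k hk
          simp only [Finset.coe_filter, Set.mem_ofPred_eq] at hk
          simp only [hT, Finset.coe_filter, Finset.mem_univ, true_and, Set.mem_ofPred_eq]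
          rw [← hk.2, Fin.cons_self_tail]
          exact hk.1
        · intro k hk k2 hk2 heq
          simp only [Finset.coe_filter, Set.mem_ofPred_eq] at hk hk2
          simp only at heq
          rw [← Fin.cons_self_tail k, ← Fin.cons_self_tail k2, hk.2, hk2.2, heq]
      have h4 : ∑ k' ∈ K', (T k').offDiag.card =
          ∑ p ∈ (Finset.univ : Finset (Fin (L + 1))).offDiag, (Kab p).card := by
        have h5 : ∀ k' ∈ K', (T k').offDiag.card =
            ∑ p ∈ (Finset.univ : Finset (Fin (L + 1))).offDiag,
              if p.1 ∈ T k' ∧ p.2 ∈ T k' then 1 else 0 := by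
          intro k' _
          rw [← Finset.sum_filter, ← Finset.card_eq_sum_ones]
          congr 1
          ext p
          simp only [Finset.mem_offDiag, Finset.mem_filter, Finset.mem_univ, true_and]
          tauto
        rw [Finset.sum_congr rfl h5, Finset.sum_comm]
        refine Finset.sum_congr rfl fun p _ => ?_
        rw [← Finset.sum_filter, ← Finset.card_eq_sum_ones]
      have h6 : ∑ p ∈ (Finset.univ : Finset (Fin (L + 1))).offDiag, (Kab p).card ≤
          (L + 1) ^ 2 * (2 ^ m * ((L + 1) ^ 2) ^ h) := by
        refine (Finset.sum_le_card_nsmul _ _ _ fun p hp => ih h (Kab p) (h2 p hp)).trans ?_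
        rw [smul_eq_mul]
        refine Nat.mul_le_mul_right _ ?_
        rw [Finset.offDiag_card, Finset.card_univ, Fintype.card_fin, sq]
        exact Nat.sub_le _ _
      calc K.card ≤ ∑ k' ∈ K', (1 + (T k').offDiag.card) := h3
        _ = K'.card + ∑ k' ∈ K', (T k').offDiag.card := by
            rw [Finset.sum_add_distrib, ← Finset.card_eq_sum_ones]
        _ ≤ 2 ^ m * ((L + 1) ^ 2) ^ (h + 1) + (L + 1) ^ 2 * (2 ^ m * ((L + 1) ^ 2) ^ h) := by
            rw [h4]
            exact Nat.add_le_add (ih (h + 1) K' h1) h6
        _ = 2 ^ (m + 1) * ((L + 1) ^ 2) ^ (h + 1) := by ring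

theorem np : S_NP := by
  intro m h L K _ hK
  rw [pow_mul]
  exact bound L m h K hK

end Pool.Agent.W991.TF.NP
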